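import Pool.Agent.N671.DA.Tup
import Pool.Agent.Results.MP_1f047c_nt.TuplesPowerSaving

/-!
# Singular matrices of logarithms at the best approximation vectors of almost all systems of linear forms

Let `α` be a real matrix with `k` rows and `n` columns, `β` in `ℝ^n` and `τ > 0`. We consider the integer vectors
`v = (v_1, …, v_k)` with `‖(v α)_j - β_j‖ ≤ c |v| ^ (-τ)` for `j = 1, …, n`, `‖x‖` the distance to the nearest integer and
`|v|` the maximum norm; for `β = 0`, `c = 1` and `τ = k / n` they include all best approximation vectors of the system of the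
linear forms `v α`, by the theorem of Minkowski. Let `θ_1, …, θ_r` be different algebraic numbers.

* For almost all `α`, for ALL number fields `K` and all large vectors `v` of this kind, `τ = k / n`, Q1 holds over `K`, for
  matrices of all sizes, for the `K`-space generated by any logarithms of the `k r` numbers `|v_i| + θ_j`, and these logarithms
  are linearly independent over `K`.
* More generally let `V_i`, `i` in a countable set, be `K_i`-spaces of complex numbers for which Q1 holds over the number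
  field `K_i` (for instance `V_i = 0` or `dim V_i = 1`), of dimension at most `m`, `[K_i : ℚ] ≤ d`. For all `α` outside a set
  of Hausdorff dimension at most `(k - 1) n + (n + k - c₀) / (1 + τ)`, `c₀ > 0` depends only on `θ`, `k`, `d`, `m`, for every
  `i` and all large `v` of this kind Q1 holds over `K_i` for the space `V_i + K_i l`, where the `l` are any logarithms of the
  numbers `|v_i| + θ_j`, and the `l` are linearly independent modulo `V_i`.

For example: for almost all real numbers `α` and all large denominators `q` of the convergents of `α`, the singular matrices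
with entries which are rational combinations of `log (q + 1)`, …, `log (q + r)` satisfy the conclusion of the question.

The best approximation vectors are a very sparse sequence, about `log T` vectors of norm at most `T`, and so this does not
follow from the size of the exceptional set, which is only smaller than `T^k` by a factor `T^c₀` with a small positive `c₀`.

Proof. The starting theorem `TuplesPowerSaving` of this problem bounds the number of the exceptional vectors by
`C T^(k - c₀)`. The matrices `α` with `‖(v α)_j - β_j‖ ≤ c |v| ^ (-τ)` form neighbourhoods of parallel affine subspaces,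
covered by cubes of side `|v| ^ (-1 - τ)` (`Pool.Agent.N671.DA`).
-/

set_option autoImplicit false

open Module MeasureTheory

namespace Pool.Agent.Results.MP_1f047c_nt.BestApproximations

open Pool.Agent.N671.DA (Near approx_tuples)
open Pool.Agent.Results.MP_1f047c_nt.TuplesPowerSaving (Q1Holds Extends)

/-- `K` is a number field of degree at most `d`, the `K`-space `V` has dimension at most `m`, and Q1 holds for `V` over `K`
(which is the case if the dimension is at most `1`) -/
def Admissible (d m : ℕ) {K : IntermediateField ℚ ℂ} (V : Submodule K ℂ) : Prop :=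
  FiniteDimensional ℚ K ∧ finrank ℚ K ≤ d ∧ Module.Finite K V ∧ finrank K V ≤ m ∧ (finrank K V ≤ 1 ∨ Q1Holds V)

/-- all `|v_i| ≥ 2`, and for ALL choices `l` of the logarithms of the numbers `|v_i| + θ_j` the `l` are `K`-linearly
independent modulo `V` and Q1 holds over `K` for `V + K l` -/
def Good {K : IntermediateField ℚ ℂ} (V : Submodule K ℂ) {k r : ℕ} (θ : Fin r → ℂ) (v : Fin k → ℤ) : Prop :=
  (∀ i, 2 ≤ (v i).natAbs) ∧
    ∀ l : Fin k × Fin r → ℂ, (∀ p, Complex.exp (l p) = ((v p.1).natAbs : ℂ) + θ p.2) → Extends V l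

/-- the integer vectors `v` with `‖(v α)_j - β_j‖ ≤ c |v| ^ (-τ)` for all `j` which are large enough are good -/
def AllLargeGood {K : IntermediateField ℚ ℂ} (V : Submodule K ℂ) {k r n : ℕ} (θ : Fin r → ℂ) (β : Fin n → ℝ) (τ : ℝ)
    (α : Fin k × Fin n → ℝ) : Prop :=
  ∀ c : ℝ, ∃ Q : ℝ, ∀ v : Fin k → ℤ, Q ≤ ‖v‖ → Near α β v (c * ‖v‖ ^ (-τ)) → Good V θ v

theorem one {r : ℕ} (θ : Fin r → ℂ) (hθ : ∀ j, IsAlgebraic ℚ (θ j)) (hinj : Function.Injective θ) (k : ℕ)
    (hk : 1 ≤ k) (d m : ℕ) :
    ∃ c₀ : ℝ, 0 < c₀ ∧ c₀ ≤ 1 ∧ ∀ (K : IntermediateField ℚ ℂ) (V : Submodule K ℂ), Admissible d m V →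
      ∀ (n : ℕ) (β : Fin n → ℝ) (τ : ℝ), 0 < τ → ∃ E : Set (Fin k × Fin n → ℝ),
        dimH E ≤ ENNReal.ofReal (((k : ℝ) - 1) * n + (n + ((k : ℝ) - c₀)) / (1 + τ)) ∧
        ∀ α, α ∉ E → AllLargeGood V θ β τ α := by
  obtain ⟨c, hc, C, h⟩ := Pool.Agent.Results.MP_1f047c_nt.TuplesPowerSaving.result θ hθ hinj k d m
  refine ⟨min c 1, lt_min hc one_pos, min_le_right _ _, fun K V hV n β τ hτ => ?_⟩
  obtain ⟨hK, hKd, hVf, hVm, hV0⟩ := hV
  obtain ⟨W, hW⟩ : ∃ W : Set (Fin k → ℕ), W = {w | ∃ l : Fin k × Fin r → ℂ,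
      (∀ p, Complex.exp (l p) = w p.1 + θ p.2) ∧ ¬ Extends V l} := ⟨_, rfl⟩
  obtain ⟨E, hE, hE2⟩ := approx_tuples hk W (c₀ := min c 1) (C₀ := |C|) (min_le_right _ _) (fun T hT => by
    have h1 := (h K hK hKd V hVf hVm hV0 T hT).2
    have h2 : {w : Fin k → ℕ | (∀ i, 2 ≤ w i ∧ w i ≤ T) ∧ w ∈ W} = TuplesPowerSaving.Exceptional V θ T := by
      rw [hW]
      rfl
    rw [h2]
    have hT1 : (1 : ℝ) ≤ T := by exact_mod_cast hT
    calc _ ≤ C * (T : ℝ) ^ ((k : ℝ) - c) := h1
      _ ≤ |C| * (T : ℝ) ^ ((k : ℝ) - c) := mul_le_mul_of_nonneg_right (le_abs_self C) (by positivity)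
      _ ≤ |C| * (T : ℝ) ^ ((k : ℝ) - min c 1) := by
          refine mul_le_mul_of_nonneg_left ?_ (abs_nonneg C)
          exact Real.rpow_le_rpow_of_exponent_le hT1 (by linarith [min_le_left c 1])) β hτ
  refine ⟨E, hE, fun α hα c' => ?_⟩
  obtain ⟨Q, hQ⟩ := hE2 α hα c'
  refine ⟨Q, fun v hv h1 => ?_⟩
  obtain ⟨h2, h3⟩ := hQ v hv h1
  refine ⟨h2, fun l hl => ?_⟩
  by_contra hcon
  apply h3
  rw [hW]
  exact ⟨l, hl, hcon⟩

theorem many {r : ℕ} (θ : Fin r → ℂ) (hθ : ∀ j, IsAlgebraic ℚ (θ j)) (hinj : Function.Injective θ) (k : ℕ)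
    (hk : 1 ≤ k) (d m : ℕ) :
    ∃ c₀ : ℝ, 0 < c₀ ∧ ∀ (ι : Type) [Countable ι] (K : ι → IntermediateField ℚ ℂ)
      (V : ∀ i, Submodule (K i) ℂ), (∀ i, Admissible d m (V i)) →
      ∀ (n : ℕ) (β : Fin n → ℝ) (τ : ℝ), 0 < τ → ∃ E : Set (Fin k × Fin n → ℝ),
        dimH E ≤ ENNReal.ofReal (((k : ℝ) - 1) * n + (n + ((k : ℝ) - c₀)) / (1 + τ)) ∧
        ∀ α, α ∉ E → ∀ i, AllLargeGood (V i) θ β τ α := by
  obtain ⟨c₀, hc, _, h⟩ := one θ hθ hinj k hk d m
  refine ⟨c₀, hc, fun ι _ K V hV n β τ hτ => ?_⟩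
  choose E hE hE2 using fun i => h (K i) (V i) (hV i) n β τ hτ
  refine ⟨⋃ i, E i, ?_, fun α hα i => ?_⟩
  · rw [dimH_iUnion]
    exact iSup_le hE
  · exact hE2 i α (fun h => hα (Set.mem_iUnion.2 ⟨i, h⟩))

/-- there are only countably many number fields -/
theorem countable_fields : Countable {K : IntermediateField ℚ ℂ // FiniteDimensional ℚ K} := by
  have h1 : Countable {x : ℂ // IsAlgebraic ℚ x} := (Algebraic.countable ℚ ℂ).to_subtype
  have h2 : ∀ K : {K : IntermediateField ℚ ℂ // FiniteDimensional ℚ K},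
      ∃ x : {x : ℂ // IsAlgebraic ℚ x}, IntermediateField.adjoin ℚ {(x : ℂ)} = K.1 := by
    rintro ⟨K, hK⟩
    obtain ⟨a, ha⟩ := @Field.exists_primitive_element ℚ K _ _ K.algebra' hK inferInstance
    refine ⟨⟨(a : ℂ), ?_⟩, ?_⟩
    · exact (Algebra.IsAlgebraic.isAlgebraic (R := ℚ) a).algebraMap
    · have h3 := congr_arg IntermediateField.lift ha
      rw [IntermediateField.lift_top, IntermediateField.lift_adjoin_simple] at h3
      exact h3
  choose f hf using h2
  refine Function.Injective.countable (f := f) fun K L hKL => ?_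
  apply Subtype.ext
  rw [← hf K, ← hf L, hKL]

/-- a set of small dimension is a null set -/
theorem null_of_dim {ι : Type} [Fintype ι] {E : Set (ι → ℝ)} {s : ℝ} (hE : dimH E ≤ ENNReal.ofReal s)
    (hs : s < Fintype.card ι) (hc : 0 < Fintype.card ι) : volume E = 0 := by
  rw [← hausdorffMeasure_pi_real]
  have hc' : (0 : ℝ) < Fintype.card ι := by exact_mod_cast hc
  have h1 : dimH E < ((Fintype.card ι : NNReal) : ENNReal) := by
    refine hE.trans_lt ?_
    have h2 := (ENNReal.ofReal_lt_ofReal_iff hc').2 hs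
    have h3 : ENNReal.ofReal (Fintype.card ι : ℝ) = ((Fintype.card ι : NNReal) : ENNReal) := by
      rw [ENNReal.ofReal_natCast]
      rfl
    rwa [h3] at h2
  have h4 := hausdorffMeasure_of_dimH_lt h1
  exact_mod_cast h4

/-- **Logarithms at the best approximation vectors.** Let `θ_j` be different algebraic numbers and `k ≥ 1`.

(1) For all `d`, `m` there is `c₀ > 0` such that for all countable families of number fields `K i` of degree at most `d` and
of `K i`-spaces `V i` of complex numbers of dimension at most `m` for which Q1 holds over `K i` (or of dimension at most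
`1`), all `n`, `β ∈ ℝ^n`, `τ > 0`: for all real matrices `α` with `k` rows and `n` columns outside a set of Hausdorff
dimension at most `(k - 1) n + (n + k - c₀) / (1 + τ)`, all `i` and `c`, for all large integer vectors `v` with
`‖(v α)_j - β_j‖ ≤ c |v| ^ (-τ)` for all `j`, and for ALL choices `l` of the logarithms of the numbers `|v_i| + θ_j`, the `l`
are linearly independent over `K i` modulo `V i`, and Q1 holds over `K i` for `V i + K i l`.

(2) For all `n ≥ 1`, `β ∈ ℝ^n`, for almost all real matrices `α` with `k` rows and `n` columns, for ALL number fields `K` and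
all `c`, for all large integer vectors `v` with `‖(v α)_j - β_j‖ ≤ c |v| ^ (-k / n)` for all `j` the same is true for
`V = 0`. -/
theorem result {r : ℕ} (θ : Fin r → ℂ) (hθ : ∀ j, IsAlgebraic ℚ (θ j)) (hinj : Function.Injective θ) (k : ℕ)
    (hk : 1 ≤ k) :
    (∀ d m : ℕ, ∃ c₀ : ℝ, 0 < c₀ ∧ ∀ (ι : Type) [Countable ι] (K : ι → IntermediateField ℚ ℂ)
      (V : ∀ i, Submodule (K i) ℂ), (∀ i, Admissible d m (V i)) →
      ∀ (n : ℕ) (β : Fin n → ℝ) (τ : ℝ), 0 < τ → ∃ E : Set (Fin k × Fin n → ℝ),
        dimH E ≤ ENNReal.ofReal (((k : ℝ) - 1) * n + (n + ((k : ℝ) - c₀)) / (1 + τ)) ∧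
        ∀ α, α ∉ E → ∀ i, AllLargeGood (V i) θ β τ α) ∧
    ∀ n : ℕ, 1 ≤ n → ∀ β : Fin n → ℝ, ∀ᵐ α : Fin k × Fin n → ℝ, ∀ K : IntermediateField ℚ ℂ,
      FiniteDimensional ℚ K → AllLargeGood (⊥ : Submodule K ℂ) θ β ((k : ℝ) / n) α := by
  refine ⟨fun d m => many θ hθ hinj k hk d m, fun n hn β => ?_⟩
  have hcount := countable_fields
  have hk1 : (1 : ℝ) ≤ k := by exact_mod_cast hk
  have hn1 : (1 : ℝ) ≤ n := by exact_mod_cast hn
  have key : ∀ᵐ α : Fin k × Fin n → ℝ, ∀ K : {K : IntermediateField ℚ ℂ // FiniteDimensional ℚ K},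
      AllLargeGood (⊥ : Submodule K.1 ℂ) θ β ((k : ℝ) / n) α := by
    rw [ae_all_iff]
    rintro ⟨K, hK⟩
    obtain ⟨c₀, hc, _, h⟩ := one θ hθ hinj k hk (finrank ℚ K) 0
    obtain ⟨E, hE, hE2⟩ := h K ⊥ ⟨hK, le_rfl, inferInstance, by rw [finrank_bot], Or.inl (by rw [finrank_bot]; norm_num)⟩
      n β ((k : ℝ) / n) (by positivity)
    have h0 : volume E = 0 := by
      refine null_of_dim hE ?_ ?_
      · rw [Fintype.card_prod, Fintype.card_fin, Fintype.card_fin]
        have h1 : ((n : ℝ) + ((k : ℝ) - c₀)) / (1 + (k : ℝ) / n) < n := by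
          rw [div_lt_iff₀ (by positivity)]
          have h2 : (n : ℝ) * (1 + (k : ℝ) / n) = n + k := by field_simp
          rw [h2]
          linarith
        push_cast
        nlinarith
      · rw [Fintype.card_prod, Fintype.card_fin, Fintype.card_fin]
        positivity
    have h3 : ∀ᵐ α : Fin k × Fin n → ℝ, α ∉ E := by
      rw [ae_iff]
      simpa using h0
    filter_upwards [h3] with α hα
    exact hE2 α hα
  filter_upwards [key] with α hα K hK
  exact hα ⟨K, hK⟩

end Pool.Agent.Results.MP_1f047c_nt.BestApproximations
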