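import Pool.Agent.N251.LF.Tuples
import Pool.Agent.N251.LF.Fields
import Pool.Agent.Results.MP_1f047c_nt.TuplesPowerSaving

/-!
# Singular matrices of logarithms near the values of generic systems of linear forms

Let `v_a`, `a` in a countable set, be vectors in `ℝ^n`, `O(X^(τ + ε))` of them of norm at most `X` for every `ε > 0`: for
instance the vectors `(b_1^(m_1), …, b_n^(m_n))`, `b_j > 1`, for all `m_1, …, m_n`, with `τ = 0`, or `(1, m, …, m^D)` with
`τ = 1 / D`. Let `θ_1, …, θ_r` be different algebraic numbers.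

* For almost all real matrices `α` with `k` rows and `n` columns, if `τ = 0`: for ALL number fields `K` and all `c`, for all but
  finitely many `a`, for all integer vectors `q` with `|q - α v_a| ≤ c`, Q1 holds over `K`, for matrices of all sizes, for the
  `K`-space generated by any logarithms of the `k r` numbers `|q_l| + θ_j`, and these logarithms are linearly independent over
  `K`.
* More generally let `V_i`, `i` in a countable set, be `K_i`-spaces of complex numbers for which Q1 holds over the number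
  field `K_i` (for instance `V_i = 0` or `dim V_i = 1`), of dimension at most `m`, `[K_i : ℚ] ≤ d`, and `κ < 1`. For all `α`
  outside a set of Hausdorff dimension at most `k (n - 1) + (k - c₀ + τ) / (1 - κ)`, `c₀ > 0` depends only on `θ`, `k`, `d`,
  `m`, for all `i`, `c`, for all but finitely many `a`, for all integer vectors `q` with `|q - α v_a| ≤ c |v_a| ^ κ` (maximum
  norm), Q1 holds over `K_i` for the space `V_i + K_i l`, where the `l` are any logarithms of the numbers `|q_l| + θ_j`, and the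
  `l` are linearly independent modulo `V_i`. The bound is less than `k n` if `τ + k κ < c₀`.

For example: for almost all pairs of real numbers `α_1`, `α_2` and all integers `q` near `α_1 2^m + α_2 3^n`, with finitely
many exceptions, the singular matrices with entries which are rational combinations of `log (q + 1)`, …, `log (q + r)` satisfy
the conclusion of the question.

Proof. The starting theorem `TuplesPowerSaving` of this problem bounds the number of the exceptional vectors by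
`C T^(k - c₀)`. For each `a` the set of the `α` with an exceptional vector near `α v_a` is contained in few neighbourhoods of
parallel affine subspaces, which are covered by small cubes (`Pool.Agent.N251.LF`).
-/

set_option autoImplicit false

open Module MeasureTheory

namespace Pool.Agent.Results.MP_1f047c_nt.GenericLinearForms

open Pool.Agent.N251.LF (Fam Sq tuple_nat countable_fields null_of_dim)
open Pool.Agent.Results.MP_1f047c_nt.TuplesPowerSaving (Q1Holds Extends)

/-- `K` is a number field of degree at most `d`, the `K`-space `V` has dimension at most `m`, and Q1 holds for `V` over `K`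
(which is the case if the dimension is at most `1`) -/
def Admissible (d m : ℕ) {K : IntermediateField ℚ ℂ} (V : Submodule K ℂ) : Prop :=
  FiniteDimensional ℚ K ∧ finrank ℚ K ≤ d ∧ Module.Finite K V ∧ finrank K V ≤ m ∧ (finrank K V ≤ 1 ∨ Q1Holds V)

/-- all `|q_l| ≥ 2`, and for ALL choices `l` of the logarithms of the numbers `|q_l| + θ_j` the `l` are `K`-linearly
independent modulo `V` and Q1 holds over `K` for `V + K l` -/
def Good {K : IntermediateField ℚ ℂ} (V : Submodule K ℂ) {k r : ℕ} (θ : Fin r → ℂ) (q : Fin k → ℤ) : Prop :=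
  (∀ i, 2 ≤ (q i).natAbs) ∧
    ∀ l : Fin k × Fin r → ℂ, (∀ p, Complex.exp (l p) = ((q p.1).natAbs : ℂ) + θ p.2) → Extends V l

/-- for all but finitely many `a`, all integer vectors `q` within `c |v_a| ^ κ` of `α v_a` are good -/
def AlmostAllGood {K : IntermediateField ℚ ℂ} (V : Submodule K ℂ) {k r n : ℕ} (θ : Fin r → ℂ) {ι : Type}
    (v : ι → Fin n → ℝ) (κ : ℝ) (α : Fin k × Fin n → ℝ) : Prop :=
  ∀ c : ℝ, {a | ¬ ∀ q : Fin k → ℤ, (∀ l, |(q l : ℝ) - ∑ j, α (l, j) * v a j| ≤ c * ‖v a‖ ^ κ) → Good V θ q}.Finite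

theorem one {r : ℕ} (θ : Fin r → ℂ) (hθ : ∀ j, IsAlgebraic ℚ (θ j)) (hinj : Function.Injective θ) (k : ℕ)
    (hk : 1 ≤ k) (d m : ℕ) :
    ∃ c₀ : ℝ, 0 < c₀ ∧ ∀ (K : IntermediateField ℚ ℂ) (V : Submodule K ℂ), Admissible d m V →
      ∀ (n : ℕ) (ι : Type) (v : ι → Fin n → ℝ) (τ κ : ℝ), Fam v τ → 0 ≤ τ → κ < 1 → ∃ E : Set (Fin k × Fin n → ℝ),
        dimH E ≤ ENNReal.ofReal ((k : ℝ) * ((n : ℝ) - 1) + ((k : ℝ) - c₀ + τ) / (1 - κ)) ∧
        ∀ α, α ∉ E → AlmostAllGood V θ v κ α := by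
  obtain ⟨c, hc, C, h⟩ := Pool.Agent.Results.MP_1f047c_nt.TuplesPowerSaving.result θ hθ hinj k d m
  refine ⟨min c 1, lt_min hc one_pos, fun K V hV n ι v τ κ hv hτ hκ => ?_⟩
  obtain ⟨hK, hKd, hVf, hVm, hV0⟩ := hV
  obtain ⟨W, hW⟩ : ∃ W : Set (Fin k → ℕ), W = {w | ∃ l : Fin k × Fin r → ℂ,
      (∀ p, Complex.exp (l p) = w p.1 + θ p.2) ∧ ¬ Extends V l} := ⟨_, rfl⟩
  obtain ⟨E, hE, hE2⟩ := tuple_nat hk W (c₀ := min c 1) (C₀ := |C|) (min_le_right _ _) (fun T hT => by
    have h1 := (h K hK hKd V hVf hVm hV0 T hT).2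
    have h2 : {w : Fin k → ℕ | (∀ i, 2 ≤ w i ∧ w i ≤ T) ∧ w ∈ W} = TuplesPowerSaving.Exceptional V θ T := by
      rw [hW]
      rfl
    rw [h2]
    have hT1 : (1 : ℝ) ≤ T := by exact_mod_cast hT
    calc _ ≤ C * (T : ℝ) ^ ((k : ℝ) - c) := h1
      _ ≤ |C| * (T : ℝ) ^ ((k : ℝ) - c) := mul_le_mul_of_nonneg_right (le_abs_self C) (by positivity)
      _ ≤ |C| * (T : ℝ) ^ ((k : ℝ) - min c 1) := by
          refine mul_le_mul_of_nonneg_left ?_ (abs_nonneg C)
          exact Real.rpow_le_rpow_of_exponent_le hT1 (by linarith [min_le_left c 1])) v hτ hκ hv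
  refine ⟨E, hE, fun α hα c' => (hE2 α hα c').subset ?_⟩
  intro a ha h1
  apply ha
  intro q hq
  obtain ⟨h2, h3⟩ := h1 q hq
  refine ⟨h2, fun l hl => ?_⟩
  by_contra hcon
  apply h3
  rw [hW]
  exact ⟨l, hl, hcon⟩

theorem many {r : ℕ} (θ : Fin r → ℂ) (hθ : ∀ j, IsAlgebraic ℚ (θ j)) (hinj : Function.Injective θ) (k : ℕ)
    (hk : 1 ≤ k) (d m : ℕ) :
    ∃ c₀ : ℝ, 0 < c₀ ∧ ∀ (I : Type) [Countable I] (K : I → IntermediateField ℚ ℂ)
      (V : ∀ i, Submodule (K i) ℂ), (∀ i, Admissible d m (V i)) →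
      ∀ (n : ℕ) (ι : Type) (v : ι → Fin n → ℝ) (τ κ : ℝ), Fam v τ → 0 ≤ τ → κ < 1 → ∃ E : Set (Fin k × Fin n → ℝ),
        dimH E ≤ ENNReal.ofReal ((k : ℝ) * ((n : ℝ) - 1) + ((k : ℝ) - c₀ + τ) / (1 - κ)) ∧
        ∀ α, α ∉ E → ∀ i, AlmostAllGood (V i) θ v κ α := by
  obtain ⟨c₀, hc, h⟩ := one θ hθ hinj k hk d m
  refine ⟨c₀, hc, fun I _ K V hV n ι v τ κ hv hτ hκ => ?_⟩
  choose E hE hE2 using fun i => h (K i) (V i) (hV i) n ι v τ κ hv hτ hκ
  refine ⟨⋃ i, E i, ?_, fun α hα i => ?_⟩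
  · rw [dimH_iUnion]
    exact iSup_le hE
  · exact hE2 i α (fun h => hα (Set.mem_iUnion.2 ⟨i, h⟩))

/-- **Logarithms near the values of generic systems of linear forms.** Let `θ_j` be different algebraic numbers and `k ≥ 1`.

(1) For all `d`, `m` there is `c₀ > 0` such that for all countable families of number fields `K i` of degree at most `d` and
of `K i`-spaces `V i` of complex numbers of dimension at most `m` for which Q1 holds over `K i` (or of dimension at most
`1`), all families `v` of vectors in `ℝ^n` of exponent `τ ≥ 0` and `κ < 1`: for all real matrices `α` with `k` rows and `n`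
columns outside a set of Hausdorff dimension at most `k (n - 1) + (k - c₀ + τ) / (1 - κ)`, all `i` and `c`, for all but finitely
many `a`, for all integer vectors `q` with `|q - α v_a| ≤ c |v_a| ^ κ` and for ALL choices `l` of the logarithms of the numbers
`|q_l| + θ_j`, the `l` are linearly independent over `K i` modulo `V i`, and Q1 holds over `K i` for `V i + K i l`.

(2) For all `n ≥ 1` and all families `v` of vectors in `ℝ^n` of exponent `0`, for almost all real matrices `α` with `k` rows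
and `n` columns, for ALL number fields `K` and all `c` the same is true for `V = 0` and `κ = 0`.

(3) The vectors `(1, n, …, n^D)` are a family of exponent `1 / D`, the `(b_1^(m_1), …, b_n^(m_n))` with `b_j > 1` one of
exponent `0`, the `(m_1^(a_1), …, m_n^(a_n))` with `a_j > 0` one of exponent `∑ 1 / a_j`, and the `(u_1(m_1), …, u_n(m_n))` one
of exponent `∑ τ_j`, if the sequences `u_j` have exponents `τ_j`. -/
theorem result {r : ℕ} (θ : Fin r → ℂ) (hθ : ∀ j, IsAlgebraic ℚ (θ j)) (hinj : Function.Injective θ) (k : ℕ)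
    (hk : 1 ≤ k) :
    (∀ d m : ℕ, ∃ c₀ : ℝ, 0 < c₀ ∧ ∀ (I : Type) [Countable I] (K : I → IntermediateField ℚ ℂ)
      (V : ∀ i, Submodule (K i) ℂ), (∀ i, Admissible d m (V i)) →
      ∀ (n : ℕ) (ι : Type) (v : ι → Fin n → ℝ) (τ κ : ℝ), Fam v τ → 0 ≤ τ → κ < 1 → ∃ E : Set (Fin k × Fin n → ℝ),
        dimH E ≤ ENNReal.ofReal ((k : ℝ) * ((n : ℝ) - 1) + ((k : ℝ) - c₀ + τ) / (1 - κ)) ∧
        ∀ α, α ∉ E → ∀ i, AlmostAllGood (V i) θ v κ α) ∧
    (∀ n : ℕ, 1 ≤ n → ∀ (ι : Type) (v : ι → Fin n → ℝ), Fam v 0 → ∀ᵐ α : Fin k × Fin n → ℝ,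
      ∀ K : IntermediateField ℚ ℂ, FiniteDimensional ℚ K → AlmostAllGood (⊥ : Submodule K ℂ) θ v 0 α) ∧
    (∀ D : ℕ, 1 ≤ D → Fam (fun (n : ℕ) (j : Fin (D + 1)) => (n : ℝ) ^ (j : ℕ)) (1 / D)) ∧
    (∀ (n : ℕ) (b : Fin n → ℝ), (∀ j, 1 < b j) → Fam (fun (m : Fin n → ℕ) (j : Fin n) => b j ^ m j) 0) ∧
    (∀ (n : ℕ) (a : Fin n → ℝ), (∀ j, 0 < a j) →
      Fam (fun (m : Fin n → ℕ) (j : Fin n) => (m j : ℝ) ^ a j) (∑ j, 1 / a j)) ∧
    ∀ (n : ℕ) (u : Fin n → ℕ → ℝ) (τ : Fin n → ℝ), (∀ j, Sq (u j) (τ j)) →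
      Fam (fun (m : Fin n → ℕ) (j : Fin n) => u j (m j)) (∑ j, τ j) := by
  refine ⟨fun d m => many θ hθ hinj k hk d m, fun n hn ι v hv => ?_, Pool.Agent.N251.LF.examples⟩
  have hcount := countable_fields
  have hk1 : (1 : ℝ) ≤ k := by exact_mod_cast hk
  have hn1 : (1 : ℝ) ≤ n := by exact_mod_cast hn
  have key : ∀ᵐ α : Fin k × Fin n → ℝ, ∀ K : {K : IntermediateField ℚ ℂ // FiniteDimensional ℚ K},
      AlmostAllGood (⊥ : Submodule K.1 ℂ) θ v 0 α := by
    rw [ae_all_iff]
    rintro ⟨K, hK⟩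
    obtain ⟨c₀, hc, h⟩ := one θ hθ hinj k hk (finrank ℚ K) 0
    obtain ⟨E, hE, hE2⟩ := h K ⊥ ⟨hK, le_rfl, inferInstance, by rw [finrank_bot], Or.inl (by rw [finrank_bot]; norm_num)⟩
      n ι v 0 0 hv le_rfl one_pos
    have h0 : volume E = 0 := by
      refine null_of_dim hE ?_ ?_
      · rw [Fintype.card_prod, Fintype.card_fin, Fintype.card_fin]
        push_cast
        rw [sub_zero, div_one]
        nlinarith
      · rw [Fintype.card_prod, Fintype.card_fin, Fintype.card_fin]
        positivity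
    have h3 : ∀ᵐ α : Fin k × Fin n → ℝ, α ∉ E := by
      rw [ae_iff]
      simpa using h0
    filter_upwards [h3] with α hα
    exact hE2 α hα
  filter_upwards [key] with α hα K hK
  exact hα ⟨K, hK⟩

end Pool.Agent.Results.MP_1f047c_nt.GenericLinearForms
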