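import Pool.Agent.N733.TG.M
import Pool.Agent.Results.MP_1f047c_nt.TuplesPowerSaving

/-!
# Singular matrices of logarithms of the values of multiplicative functions at almost all tuples

Let `F_1, …, F_k` be positive multiplicative functions of at most polynomial growth with `F_i p ≤ M p` for the large primes
`p` and different values at different large primes; for example Euler's function or the sum of the divisors. Let
`θ_1, …, θ_r` be different algebraic numbers, and let `V` be a `K`-space of complex numbers for which Q1 holds over the number
field `K` (for instance `V = 0` or `dim V = 1`), of dimension at most `m`, `[K : ℚ] ≤ d`. For all but `N^k / (log N)^U` of the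
`k`-tuples `n` of positive integers up to `N`, Q1 holds over `K` for the space `V + K l`, where the `l` are any logarithms of
the `k r` numbers `F_i (n_i) + θ_j`, and the `l` are `K`-linearly independent modulo `V`. For example: for almost all pairs
`(n_1, n_2)` the singular matrices with entries which are rational combinations of `log φ(n_1)` and `log σ(n_2)`
satisfy the conclusion of the question.

Proof. The starting theorem `TuplesPowerSaving` bounds the number of the exceptional tuples of integers up to `T` by
`C T^(k - c)`. The values of the `F_i` are taken with very large multiplicities. Write `n = u w` where `u` is composed of the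
primes `≤ z = N^(1 / J)`, `J` about `log log N`. For most `n` one has `u ≤ N^η`, and `w` is a product of at most `J` different
primes. So `F_i (w)` is taken at most `(1 + τ)^J` times, `τ` its number of divisors, which is at most `N^o(1)` on average.
Hence the `F_i` avoid sets with a power saving; and the case of `k`-tuples follows by slicing.
-/

set_option autoImplicit false

namespace Pool.Agent.Results.MP_1f047c_nt.MultiplicativeValues

open Module
open Pool.Agent.N733.TG (LM lm_totient lm_sigma keep_tuples2)
open Pool.Agent.Results.MP_1f047c_nt.TuplesPowerSaving (Q1Holds Extends Exceptional)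

/-- **Logarithms of the values of multiplicative functions.** Let `θ_j` be different algebraic numbers, `F_i`, `i < k`,
multiplicative and positive, of at most polynomial growth, with `F_i p ≤ M p` at the large primes, and injective there. For
all `d`, `m`, `U` there is `N₀` such that for all `N ≥ N₀`, all number fields `K` of degree at most `d` and all `K`-spaces `V`
of complex numbers of dimension at most `m` for which Q1 holds over `K` (or of dimension at most `1`): for all but
`N^k / (log N)^U` of the `k`-tuples `n` of integers in `[1, N]`, the numbers `F_i (n_i)` are at least `2`, and for ALL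
choices `l` of the logarithms of the numbers `F_i (n_i) + θ_j` the `l` are `K`-linearly independent modulo `V` and Q1 holds
over `K` for `V + K l`. Euler's function and the sum of the divisors are examples of such functions. -/
theorem result :
    (∀ {r : ℕ} (θ : Fin r → ℂ), (∀ j, IsAlgebraic ℚ (θ j)) → Function.Injective θ → ∀ k : ℕ, 1 ≤ k →
      ∀ F : Fin k → ℕ → ℕ, (∀ i, LM (F i)) → ∀ d m U : ℕ, ∃ N₀ : ℕ, ∀ N : ℕ, N₀ ≤ N →
      ∀ K : IntermediateField ℚ ℂ, FiniteDimensional ℚ K → finrank ℚ K ≤ d →
      ∀ V : Submodule K ℂ, Module.Finite K V → finrank K V ≤ m → (finrank K V ≤ 1 ∨ Q1Holds V) →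
      ({n : Fin k → ℕ | (∀ i, 1 ≤ n i ∧ n i ≤ N) ∧ ¬ ((∀ i, 2 ≤ F i (n i)) ∧
        ∀ l : Fin k × Fin r → ℂ, (∀ p, Complex.exp (l p) = F p.1 (n p.1) + θ p.2) → Extends V l)}.ncard : ℝ) ≤
        (N : ℝ) ^ k / Real.log N ^ U) ∧
    LM Nat.totient ∧ LM (fun m => ∑ d ∈ m.divisors, d) := by
  refine ⟨fun {r} θ hθ hinj k hk F hF d m U => ?_, lm_totient, lm_sigma⟩
  obtain ⟨c, hc, C, h⟩ := Pool.Agent.Results.MP_1f047c_nt.TuplesPowerSaving.result θ hθ hinj k d m
  obtain ⟨N₀, hN₀⟩ := keep_tuples2 hk hF hc U C
  refine ⟨N₀, fun N hN K hK hKd V hV hVm hV0 => ?_⟩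
  have h1 := hN₀ N hN {n | ∃ l : Fin k × Fin r → ℂ, (∀ p, Complex.exp (l p) = n p.1 + θ p.2) ∧ ¬ Extends V l}
    (fun X hX => (h K hK hKd V hV hVm hV0 X hX).2)
  refine le_trans (le_of_eq ?_) h1
  congr 2
  ext n
  simp only [Set.mem_ofPred_eq]
  have e : (∀ l : Fin k × Fin r → ℂ, (∀ p, Complex.exp (l p) = F p.1 (n p.1) + θ p.2) → Extends V l) ↔
      ¬ ∃ l : Fin k × Fin r → ℂ, (∀ p, Complex.exp (l p) = (F p.1 (n p.1) : ℂ) + θ p.2) ∧ ¬ Extends V l := by
    push Not
    rfl
  rw [e]

end Pool.Agent.Results.MP_1f047c_nt.MultiplicativeValues
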