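import Pool.Agent.N760.IT.E
import Pool.Agent.Results.MP_1f047c_nt.TuplesPowerSaving

/-!
# Singular matrices of logarithms of the members of almost all orbits of Euler's function

Let `φ_j` be the `j`-th iterate of Euler's function, `φ_0(u) = u`. Let `f` be a positive multiplicative function of at most
polynomial growth with `f p ≤ M p` for the large primes `p` and different values at different large primes; for example the
identity, Euler's function or the sum of the divisors. Let `θ_1, …, θ_r` be different algebraic numbers, and let `V` be a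
`K`-space of complex numbers for which Q1 holds over the number field `K` (for instance `V = 0` or `dim V = 1`), of dimension
at most `m`, `[K : ℚ] ≤ d`. For all but `ε N` of the positive integers `u` up to `N`, for all `j ≤ J`, with
`v = f(φ_j(u))`, Q1 holds over `K` for the spaces `V + K l`, where the `l` are any logarithms of the `r` numbers
`n + θ_i`, for ALL integers `n` with `|n - G v| ≤ v^κ`, and the `l` are `K`-linearly independent modulo `V`. For example: for
almost all `u`, for all `j ≤ J`, with `v = φ_j(u)`, the singular matrices with entries which are rational combinations of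
`log v`, `log (v + 1)`, …, `log (v + r)` satisfy the conclusion of the question.

Proof. The starting theorem `TuplesPowerSaving` bounds the number of the exceptional integers up to `T` by `C T^(1 - c)`, where
`C` does not depend on `K` and `V`. The values `f(φ_j(u))` are taken with very large multiplicities, and form a thin set; but
they avoid sets with a power saving for almost all `u`, uniformly in the set (`Pool.Agent.N760.IT`).
-/

set_option autoImplicit false

namespace Pool.Agent.Results.MP_1f047c_nt.TotientOrbits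

open Module
open Pool.Agent.N733.TG (LM Expanding lm_totient lm_sigma expanding_pow)
open Pool.Agent.N760.IT (orb lm_id orbit_unif)
open Pool.Agent.Results.MP_1f047c_nt.TuplesPowerSaving (Q1Holds Extends Exceptional)

/-- The numbers `l_i` are `K`-linearly independent modulo `V`, and Q1 holds for the space generated by `V` and the
`l_i`. -/
def ExtendsBy {K : IntermediateField ℚ ℂ} (V : Submodule K ℂ) {r : ℕ} (l : Fin r → ℂ) : Prop :=
  finrank K (V ⊔ Submodule.span K (Set.range l) : Submodule K ℂ) = finrank K V + r ∧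
    Q1Holds (V ⊔ Submodule.span K (Set.range l))

lemma extends_iff {K : IntermediateField ℚ ℂ} (V : Submodule K ℂ) {r : ℕ} (l : Fin r → ℂ) :
    Extends V (fun p : Fin 1 × Fin r => l p.2) ↔ ExtendsBy V l := by
  have e : Set.range (fun p : Fin 1 × Fin r => l p.2) = Set.range l := by
    ext x
    simp only [Set.mem_range]
    exact ⟨fun ⟨p, hp⟩ => ⟨p.2, hp⟩, fun ⟨i, hi⟩ => ⟨(0, i), hi⟩⟩
  unfold Extends ExtendsBy
  rw [e, one_mul]

/-- the integers near which something goes wrong -/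
def Bad {K : IntermediateField ℚ ℂ} (V : Submodule K ℂ) {r : ℕ} (θ : Fin r → ℂ) : Set ℕ :=
  {n | ¬ (2 ≤ n ∧ ∀ l : Fin r → ℂ, (∀ i, Complex.exp (l i) = n + θ i) → ExtendsBy V l)}

/-- the number of the exceptional integers -/
lemma bad_count {r : ℕ} (θ : Fin r → ℂ) (hθ : ∀ j, IsAlgebraic ℚ (θ j)) (hinj : Function.Injective θ) (d m : ℕ) :
    ∃ c : ℝ, 0 < c ∧ c ≤ 1 ∧ ∃ C : ℝ, ∀ K : IntermediateField ℚ ℂ, FiniteDimensional ℚ K → finrank ℚ K ≤ d →
      ∀ V : Submodule K ℂ, Module.Finite K V → finrank K V ≤ m → (finrank K V ≤ 1 ∨ Q1Holds V) → ∀ X : ℝ, 1 ≤ X →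
      {n : ℕ | n ∈ Bad V θ ∧ (n : ℝ) ≤ X}.Finite ∧
      ({n : ℕ | n ∈ Bad V θ ∧ (n : ℝ) ≤ X}.ncard : ℝ) ≤ C * X ^ (1 - c) := by
  obtain ⟨c, hc, C, h⟩ := TuplesPowerSaving.result θ hθ hinj 1 d m
  refine ⟨min c 1, lt_min hc one_pos, min_le_right _ _, 2 + |C|, fun K hK hKd V hV hVm hV0 X hX => ?_⟩
  have hT : 1 ≤ ⌊X⌋₊ := Nat.le_floor (by exact_mod_cast hX)
  have hTX : ((⌊X⌋₊ : ℕ) : ℝ) ≤ X := Nat.floor_le (by linarith)
  have hT1 : (1 : ℝ) ≤ ((⌊X⌋₊ : ℕ) : ℝ) := by exact_mod_cast hT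
  obtain ⟨h1, h2⟩ := h K hK hKd V hV hVm hV0 ⌊X⌋₊ hT
  have hfin : {n : ℕ | n ∈ Bad V θ ∧ (n : ℝ) ≤ X}.Finite :=
    (Set.finite_Iic ⌊X⌋₊).subset (fun n hn => Nat.le_floor hn.2)
  refine ⟨hfin, ?_⟩
  have hsub : {n : ℕ | n ∈ Bad V θ ∧ (n : ℝ) ≤ X} ⊆
      ({0, 1} : Set ℕ) ∪ (fun t : Fin 1 → ℕ => t 0) '' (Exceptional V θ ⌊X⌋₊ : Set (Fin 1 → ℕ)) := by
    rintro n ⟨h3, h4⟩
    by_cases hn : 2 ≤ n
    · right
      unfold Bad at h3
      rw [Set.mem_ofPred_eq] at h3
      push Not at h3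
      obtain ⟨l, hl, hl2⟩ := h3 hn
      refine ⟨fun _ => n, ⟨fun _ => ⟨hn, Nat.le_floor h4⟩, fun p => l p.2, fun p => hl p.2, ?_⟩, rfl⟩
      rw [extends_iff]
      exact hl2
    · left
      have : n = 0 ∨ n = 1 := by omega
      exact this
  have h5 : {n : ℕ | n ∈ Bad V θ ∧ (n : ℝ) ≤ X}.ncard ≤ 2 + (Exceptional V θ ⌊X⌋₊ : Set (Fin 1 → ℕ)).ncard := by
    refine (Set.ncard_le_ncard hsub (Set.Finite.union (Set.toFinite _) (h1.image _))).trans ?_
    refine (Set.ncard_union_le _ _).trans (Nat.add_le_add ?_ (Set.ncard_image_le h1))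
    exact (Set.ncard_insert_le _ _).trans (by rw [Set.ncard_singleton])
  have h6 : ({n : ℕ | n ∈ Bad V θ ∧ (n : ℝ) ≤ X}.ncard : ℝ) ≤
      2 + ((Exceptional V θ ⌊X⌋₊ : Set (Fin 1 → ℕ)).ncard : ℝ) := by exact_mod_cast h5
  have h7 : ((⌊X⌋₊ : ℕ) : ℝ) ^ (((1 : ℕ) : ℝ) - c) ≤ X ^ (1 - min c 1) := by
    calc ((⌊X⌋₊ : ℕ) : ℝ) ^ (((1 : ℕ) : ℝ) - c) ≤ ((⌊X⌋₊ : ℕ) : ℝ) ^ (1 - min c 1) := by
          apply Real.rpow_le_rpow_of_exponent_le hT1
          have := min_le_left c 1
          push_cast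
          linarith
      _ ≤ X ^ (1 - min c 1) := by
          apply Real.rpow_le_rpow (Nat.cast_nonneg _) hTX
          have := min_le_right c 1
          linarith
  have h8 : (1 : ℝ) ≤ X ^ (1 - min c 1) := Real.one_le_rpow hX (by
    have := min_le_right c 1
    linarith)
  calc ({n : ℕ | n ∈ Bad V θ ∧ (n : ℝ) ≤ X}.ncard : ℝ)
      ≤ 2 + C * ((⌊X⌋₊ : ℕ) : ℝ) ^ (((1 : ℕ) : ℝ) - c) := h6.trans (by linarith)
    _ ≤ 2 * X ^ (1 - min c 1) + |C| * X ^ (1 - min c 1) := by
        apply add_le_add (by linarith)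
        calc C * ((⌊X⌋₊ : ℕ) : ℝ) ^ (((1 : ℕ) : ℝ) - c) ≤ |C| * ((⌊X⌋₊ : ℕ) : ℝ) ^ (((1 : ℕ) : ℝ) - c) :=
              mul_le_mul_of_nonneg_right (le_abs_self C) (by positivity)
          _ ≤ |C| * X ^ (1 - min c 1) := mul_le_mul_of_nonneg_left h7 (abs_nonneg C)
    _ = (2 + |C|) * X ^ (1 - min c 1) := by ring

/-- **Logarithms of the members of the orbits of Euler's function.** `orb f j u` is `f(φ_j(u))`, `φ_j` the `j`-th iterate of
Euler's function, `φ_0(u) = u`. Let `θ_i` be different algebraic numbers. For all `d`, `m` there is `c > 0` such that for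
every `f` multiplicative and positive, of at most polynomial growth, with `f p ≤ M p` at the large primes, and injective
there, every `G` with steps `≥ a > 0` and growth at most `v^e`, `κ ≥ 0` with `e (1 - c) + κ < 1`, all `J` and `ε > 0` there
is `N₀` such that for all `N ≥ N₀`, all number fields `K` of degree at most `d` and all `K`-spaces `V` of complex numbers of
dimension at most `m` for which Q1 holds over `K` (or of dimension at most `1`): for all but `ε N` of the integers `u` in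
`[1, N]`, for all `j ≤ J`, ALL integers `n` with `|n - G (f (φ_j u))| ≤ f(φ_j(u))^κ` are at least `2`, and for ALL choices
`l` of the logarithms of the numbers `n + θ_i` the `l` are `K`-linearly independent modulo `V` and Q1 holds over `K` for
`V + K l`. The identity, Euler's function and the sum of the divisors are examples of such functions `f`, and `α v^e` with
`α > 0`, `e ≥ 1` is an example of `G`. -/
theorem result :
    (∀ {r : ℕ} (θ : Fin r → ℂ), (∀ j, IsAlgebraic ℚ (θ j)) → Function.Injective θ → ∀ d m : ℕ, ∃ c : ℝ, 0 < c ∧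
      ∀ f : ℕ → ℕ, LM f → ∀ (G : ℕ → ℝ) (e κ : ℝ), Expanding G e → 0 ≤ κ → e * (1 - c) + κ < 1 →
      ∀ (J : ℕ) (ε : ℝ), 0 < ε → ∃ N₀ : ℕ, ∀ N : ℕ, N₀ ≤ N →
      ∀ K : IntermediateField ℚ ℂ, FiniteDimensional ℚ K → finrank ℚ K ≤ d →
      ∀ V : Submodule K ℂ, Module.Finite K V → finrank K V ≤ m → (finrank K V ≤ 1 ∨ Q1Holds V) →
      ({u : ℕ | 1 ≤ u ∧ u ≤ N ∧ ¬ ∀ j ≤ J, ∀ n : ℕ, |(n : ℝ) - G (orb f j u)| ≤ (orb f j u : ℝ) ^ κ →
        2 ≤ n ∧ ∀ l : Fin r → ℂ, (∀ i, Complex.exp (l i) = n + θ i) → ExtendsBy V l}.ncard : ℝ) ≤ ε * N) ∧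
    (LM (fun m => m) ∧ LM Nat.totient ∧ LM (fun m => ∑ d ∈ m.divisors, d)) ∧
    ∀ α d : ℝ, 0 < α → 1 ≤ d → Expanding (fun v => α * (v : ℝ) ^ d) d := by
  refine ⟨fun {r} θ hθ hinj d m => ?_, ⟨lm_id, lm_totient, lm_sigma⟩, fun α d hα hd => expanding_pow hα hd⟩
  obtain ⟨c, hc, hc1, C, h⟩ := bad_count θ hθ hinj d m
  refine ⟨c, hc, fun f hf G e κ hG hκ h1 J ε hε => ?_⟩
  obtain ⟨N₀, hN₀⟩ := orbit_unif (T := ℕ) hf hG (s := 1 - c) (by linarith) hκ h1 C J ε hε
  refine ⟨N₀, fun N hN K hK hKd V hV hVm hV0 => ?_⟩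
  have h2 := hN₀ (Bad V θ) (fun n => (n : ℝ)) (h K hK hKd V hV hVm hV0) N hN
  refine le_trans ?_ h2
  have hfin : {u : ℕ | 1 ≤ u ∧ u ≤ N ∧ ∃ j ≤ J, ∃ n ∈ Bad V θ,
      |(n : ℝ) - G (orb f j u)| ≤ (orb f j u : ℝ) ^ κ}.Finite :=
    (Set.finite_Icc 1 N).subset (fun u hu => ⟨hu.1, hu.2.1⟩)
  refine Nat.cast_le.2 (Set.ncard_le_ncard ?_ hfin)
  rintro u ⟨g1, g2, g3⟩
  refine ⟨g1, g2, ?_⟩
  by_contra hcon
  apply g3
  intro j hj n hn
  by_contra h3
  exact hcon ⟨j, hj, n, h3, hn⟩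

end Pool.Agent.Results.MP_1f047c_nt.TotientOrbits
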